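import Pool.Agent.Helper98.EY.StmtsC

/-!
`BCOPEN` of the EY project: the open phase at a slow bond.
-/

namespace Pool.Agent.Helper98.EX

open Finset

/-- `η` with the particle of the site `b-1-h` moved to the site `b+g` -/
def bcopen_E {N : ℕ} (η : Cfg N) (b h g : ℕ) : Cfg N :=
  fun i => if i.val = b - 1 - h then false else if i.val = b + g then true else η i

section

variable {N : ℕ} {r l : ℕ → ℝ} {b q : ℕ} {η : Cfg N}

theorem bcopen_occ (hb : b + q ≤ N) {h g : ℕ} (hg : g < q) (i : ℕ) :
    occ (bcopen_E η b h g) i = if i = b - 1 - h then false else if i = b + g then true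
      else occ η i := by
  rcases lt_or_ge i N with hi | hi
  · rw [occ_lt hi, occ_lt hi]
    rfl
  · rw [occ_ge hi, occ_ge hi]
    split_ifs with h1 h2
    · rfl
    · omega
    · rfl

theorem bcopen_Rm {ξ : Cfg N} {x : ℕ} (h : ¬ (occ ξ (x - 1) = true ∧ occ ξ x = false)) :
    Rm x ξ = ξ := by
  unfold Rm
  rw [if_neg]
  rintro ⟨_, _, h3, h4⟩
  exact h ⟨h3, h4⟩

theorem bcopen_Lm {ξ : Cfg N} {x : ℕ} (h : ¬ (occ ξ (x - 1) = false ∧ occ ξ x = true)) :
    Lm x ξ = ξ := by
  unfold Lm
  rw [if_neg]
  rintro ⟨_, _, h3, h4⟩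
  exact h ⟨h3, h4⟩

theorem bcopen_occRm {ξ : Cfg N} {x : ℕ} (h1 : 1 ≤ x) (h2 : x < N) (h3 : occ ξ (x - 1) = true)
    (h4 : occ ξ x = false) (i : ℕ) :
    occ (Rm x ξ) i = if i = x then true else if i + 1 = x then false else occ ξ i := by
  unfold Rm
  rw [if_pos ⟨h1, h2, h3, h4⟩, occ_swp h1 h2, h3, h4]

theorem bcopen_occLm {ξ : Cfg N} {x : ℕ} (h1 : 1 ≤ x) (h2 : x < N) (h3 : occ ξ (x - 1) = false)
    (h4 : occ ξ x = true) (i : ℕ) :
    occ (Lm x ξ) i = if i = x then false else if i + 1 = x then true else occ ξ i := by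
  unfold Lm
  rw [if_pos ⟨h1, h2, h3, h4⟩, occ_swp h1 h2, h3, h4]

/-- the step state is locally lowest -/
theorem bcopen_closed (hqb : q ≤ b) (hbN : b + q ≤ N)
    (hl : ∀ x, b ≤ x + q → x < b → occ η x = true)
    (hr : ∀ x, b ≤ x → x < b + q → occ η x = false) {ξ : Cfg N} (hξ : hle 0 η ξ) {x : ℕ}
    (hx : x ∈ Finset.Ioo (b - q) (b + q)) : hle 0 η (Rm x ξ) ∧ hle 0 η (Lm x ξ) := by
  rw [Finset.mem_Ioo] at hx
  have hx1 : 1 ≤ x := by omega
  have hx2 : x < N := by omega
  refine ⟨fun y => ?_, fun y => ?_⟩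
  · have h1 := hξ y
    have h2 := ht_Rm_ge ξ x y
    omega
  · by_cases hy : y = x
    · subst hy
      rw [ht_Lm ξ hx1 hx2]
      have h1 := hξ (y - 1)
      have h2 := hξ (y + 1)
      rcases le_or_gt y b with h | h
      · have h3 := (occ_iff_ht η (by omega : y - 1 < N)).1 (hl (y - 1) (by omega) (by omega))
        have e : y - 1 + 1 = y := by omega
        rw [e] at h3
        omega
      · have h3 := (not_occ_iff_ht η hx2).1 (hr y (by omega) hx.2)
        omega
    · rw [ht_Lm_ne ξ hy]
      exact hξ y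

/-- monotonicity on an invariant set -/
theorem bcopen_mono (hA : Adm N r l) (S : Finset ℕ) (A : Set (Cfg N))
    (hc : ∀ ξ ∈ A, ∀ x ∈ S, Rm x ξ ∈ A ∧ Lm x ξ ∈ A) {f g : Cfg N → ℝ}
    (hfg : ∀ ξ ∈ A, f ξ ≤ g ξ) (m : ℕ) : ∀ ξ ∈ A,
    ev r l (fun _ => S) m f ξ ≤ ev r l (fun _ => S) m g ξ := by
  induction m with
  | zero => exact hfg
  | succ m ih =>
    intro ξ hξ
    rw [ev_succ, ev_succ]
    refine stp_couple hA (ih ξ hξ) (fun x _ _ => ?_) (fun x _ _ => ?_)
    · refine ih _ ?_
      unfold RmS
      split_ifs with h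
      · exact (hc ξ hξ x h).1
      · exact hξ
    · refine ih _ ?_
      unfold LmS
      split_ifs with h
      · exact (hc ξ hξ x h).2
      · exact hξ

theorem bcopen_stp (hA : Adm N r l) (S : Finset ℕ) (A : Set (Cfg N))
    (hc : ∀ ξ ∈ A, ∀ x ∈ S, Rm x ξ ∈ A ∧ Lm x ξ ∈ A) {f g : Cfg N → ℝ}
    (hfg : ∀ ξ ∈ A, f ξ ≤ g ξ) : ∀ ξ ∈ A, stp r l S f ξ ≤ stp r l S g ξ := by
  have := bcopen_mono hA S A hc hfg 1
  exact this

theorem bcopen_sum (S : Finset ℕ) (c : ℕ) (P : Prop) [Decidable P] (F : ℕ → ℝ)
    (h : P → c ∈ S) : ∑ x ∈ S, (if x = c ∧ P then F x else 0) = if P then F c else 0 := by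
  by_cases hP : P
  · rw [if_pos hP, Finset.sum_eq_single c]
    · rw [if_pos ⟨rfl, hP⟩]
    · intro x _ hx
      rw [if_neg (fun hh => hx hh.1)]
    · intro hh
      exact absurd (h hP) hh
  · rw [if_neg hP]
    refine Finset.sum_eq_zero fun x _ => ?_
    rw [if_neg (fun hh => hP hh.2)]

variable (hqb : q ≤ b) (hbN : b + q ≤ N)
    (hl : ∀ x, b ≤ x + q → x < b → occ η x = true)
    (hr : ∀ x, b ≤ x → x < b + q → occ η x = false)

include hqb hbN hl hr

theorem bcopen_R1 {h g : ℕ} (hh : h + 1 < q) (hg : g < q) :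
    Rm (b - 1 - h) (bcopen_E η b h g) = bcopen_E η b (h + 1) g := by
  refine cfg_ext fun i _ => ?_
  have o := bcopen_occ (η := η) hbN (h := h) hg
  rw [bcopen_occRm (by omega) (by omega) ?_ ?_, o i, bcopen_occ hbN hg]
  · by_cases h1 : i = b - 1 - h
    · rw [if_pos h1, if_neg (by omega), if_neg (by omega), hl i (by omega) (by omega)]
    · rw [if_neg h1]
      by_cases h2 : i + 1 = b - 1 - h
      · rw [if_pos h2, if_pos (by omega)]
      · rw [if_neg h2, if_neg h1]
        by_cases h3 : i = b - 1 - (h + 1)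
        · omega
        · rw [if_neg h3]
  · rw [o, if_neg (by omega), if_neg (by omega)]
    exact hl _ (by omega) (by omega)
  · rw [o, if_pos rfl]

theorem bcopen_R2 {h g : ℕ} (hh : h < q) (hg : g + 1 < q) :
    Rm (b + g + 1) (bcopen_E η b h g) = bcopen_E η b h (g + 1) := by
  refine cfg_ext fun i _ => ?_
  have o := bcopen_occ (η := η) hbN (h := h) (g := g) (by omega)
  rw [bcopen_occRm (by omega) (by omega) ?_ ?_, o i, bcopen_occ hbN hg]
  · by_cases h1 : i = b + g + 1
    · rw [if_pos h1, if_neg (by omega), if_pos (by omega)]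
    · rw [if_neg h1]
      by_cases h2 : i + 1 = b + g + 1
      · rw [if_pos h2, if_neg (by omega), if_neg (by omega), hr i (by omega) (by omega)]
      · rw [if_neg h2]
        by_cases h3 : i = b - 1 - h
        · rw [if_pos h3, if_pos h3]
        · rw [if_neg h3, if_neg h3, if_neg (by omega), if_neg (by omega)]
  · rw [o, if_neg (by omega), if_pos (by omega)]
  · rw [o, if_neg (by omega), if_neg (by omega)]
    exact hr _ (by omega) (by omega)

theorem bcopen_L1 {h g : ℕ} (h0 : 0 < h) (hh : h < q) (hg : g < q) :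
    Lm (b - h) (bcopen_E η b h g) = bcopen_E η b (h - 1) g := by
  refine cfg_ext fun i _ => ?_
  have o := bcopen_occ (η := η) hbN (h := h) hg
  rw [bcopen_occLm (by omega) (by omega) ?_ ?_, o i, bcopen_occ hbN hg]
  · by_cases h1 : i = b - h
    · rw [if_pos h1, if_pos (by omega)]
    · rw [if_neg h1]
      by_cases h2 : i + 1 = b - h
      · rw [if_pos h2, if_neg (by omega), if_neg (by omega), hl i (by omega) (by omega)]
      · rw [if_neg h2, if_neg (by omega)]
        by_cases h3 : i = b - 1 - (h - 1)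
        · omega
        · rw [if_neg h3]
  · rw [o, if_pos (by omega)]
  · rw [o, if_neg (by omega), if_neg (by omega)]
    exact hl _ (by omega) (by omega)

theorem bcopen_L2 {h g : ℕ} (hh : h < q) (g0 : 0 < g) (hg : g < q) :
    Lm (b + g) (bcopen_E η b h g) = bcopen_E η b h (g - 1) := by
  refine cfg_ext fun i _ => ?_
  have o := bcopen_occ (η := η) hbN (h := h) hg
  rw [bcopen_occLm (by omega) (by omega) ?_ ?_, o i, bcopen_occ hbN (by omega)]
  · by_cases h1 : i = b + g
    · rw [if_pos h1, if_neg (by omega), if_neg (by omega), hr i (by omega) (by omega)]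
    · rw [if_neg h1]
      by_cases h2 : i + 1 = b + g
      · rw [if_pos h2, if_neg (by omega), if_pos (by omega)]
      · rw [if_neg h2]
        by_cases h3 : i = b - 1 - h
        · rw [if_pos h3, if_pos h3]
        · rw [if_neg h3, if_neg h3, if_neg h1, if_neg (by omega)]
  · rw [o, if_neg (by omega), if_neg (by omega)]
    exact hr _ (by omega) (by omega)
  · rw [o, if_neg (by omega), if_pos rfl]

theorem bcopen_L0 (hq : 1 ≤ q) : Lm b (bcopen_E η b 0 0) = η := by
  refine cfg_ext fun i _ => ?_
  have o := bcopen_occ (η := η) hbN (h := 0) (g := 0) (by omega)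
  rw [bcopen_occLm (by omega) (by omega) ?_ ?_, o i]
  · by_cases h1 : i = b
    · rw [if_pos h1, hr i (by omega) (by omega)]
    · rw [if_neg h1]
      by_cases h2 : i + 1 = b
      · rw [if_pos h2, hl i (by omega) (by omega)]
      · rw [if_neg h2, if_neg (by omega), if_neg (by omega)]
  · rw [o, if_pos (by omega)]
  · rw [o, if_neg (by omega), if_pos (by omega)]

theorem bcopen_Rb (hq : 1 ≤ q) : Rm b η = bcopen_E η b 0 0 := by
  refine cfg_ext fun i _ => ?_
  have o := bcopen_occ (η := η) hbN (h := 0) (g := 0) (by omega)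
  rw [bcopen_occRm (by omega) (by omega) (hl _ (by omega) (by omega))
    (hr _ (by omega) (by omega)), o i]
  by_cases h1 : i = b
  · rw [if_pos h1, if_neg (by omega), if_pos (by omega)]
  · rw [if_neg h1]
    by_cases h2 : i + 1 = b
    · rw [if_pos h2, if_pos (by omega)]
    · rw [if_neg h2, if_neg (by omega), if_neg (by omega)]

theorem bcopen_Lo {h g x : ℕ} (hh : h < q) (hg : g < q)
    (hx : x ∈ Finset.Ioo (b - q) (b + q)) (h1 : ¬ (x = b - h ∧ 0 < h))
    (h2 : ¬ (x = b + g ∧ 0 < g)) (h3 : ¬ (x = b ∧ h = 0 ∧ g = 0)) :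
    Lm x (bcopen_E η b h g) = bcopen_E η b h g := by
  rw [Finset.mem_Ioo] at hx
  refine bcopen_Lm ?_
  rintro ⟨h4, h5⟩
  rw [bcopen_occ hbN hg] at h4 h5
  by_cases c1 : x = b - 1 - h
  · rw [if_pos c1] at h5
    exact absurd h5 (by simp)
  rw [if_neg c1] at h5
  by_cases c2 : x = b + g
  · by_cases c3 : x - 1 = b - 1 - h
    · exact h3 (by omega)
    · rcases Nat.eq_zero_or_pos g with c5 | c5
      · rw [if_neg c3, if_neg (by omega), hl _ (by omega) (by omega)] at h4
        exact absurd h4 (by simp)
      · exact h2 ⟨c2, c5⟩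
  rw [if_neg c2] at h5
  have c4 : x < b := by
    by_contra hc
    rw [hr x (by omega) (by omega)] at h5
    exact absurd h5 (by simp)
  by_cases c3 : x - 1 = b - 1 - h
  · exact h1 (by omega)
  · rw [if_neg c3, if_neg (by omega), hl _ (by omega) (by omega)] at h4
    exact absurd h4 (by simp)

theorem bcopen_stay {x : ℕ} (hx : x ∈ Finset.Ioo (b - q) (b + q)) :
    Lm x η = η ∧ (x ≠ b → Rm x η = η) := by
  rw [Finset.mem_Ioo] at hx
  refine ⟨bcopen_Lm ?_, fun hxb => bcopen_Rm ?_⟩
  · rintro ⟨h4, h5⟩
    rcases lt_or_ge x b with h | h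
    · rw [hl (x - 1) (by omega) (by omega)] at h4
      exact absurd h4 (by simp)
    · rw [hr x h (by omega)] at h5
      exact absurd h5 (by simp)
  · rintro ⟨h4, h5⟩
    rcases lt_or_ge x b with h | h
    · rw [hl x (by omega) h] at h5
      exact absurd h5 (by simp)
    · rw [hr (x - 1) (by omega) (by omega)] at h4
      exact absurd h4 (by simp)

end

/-- the expected height -/
noncomputable def bcopen_u {N : ℕ} (r l : ℕ → ℝ) (b q i : ℕ) : Cfg N → ℝ :=
  ev r l (fun _ => Finset.Ioo (b - q) (b + q)) i (fun ξ => (ht ξ b : ℝ))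

theorem bcopen_usucc {N : ℕ} (r l : ℕ → ℝ) (b q i : ℕ) (ξ : Cfg N) :
    bcopen_u r l b q (i + 1) ξ = bcopen_u r l b q i ξ +
      (∑ x ∈ Finset.Ioo (b - q) (b + q), (r x * (bcopen_u r l b q i (Rm x ξ) -
        bcopen_u r l b q i ξ) + l x * (bcopen_u r l b q i (Lm x ξ) -
        bcopen_u r l b q i ξ))) / (2 * N) := by
  unfold bcopen_u
  rw [ev_succ, stp_open]

theorem bcopen_uinc {N : ℕ} {r l : ℕ → ℝ} (hA : Adm N r l) (b q i x : ℕ) (ξ : Cfg N) :
    bcopen_u r l b q i ξ ≤ bcopen_u r l b q i (Rm x ξ) := by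
  have h1 : Inc (ht ξ 0) (bcopen_u (N := N) r l b q i) := by
    refine ev_inc hA ?_ _ i
    intro a c _ _ h
    have := h b
    have h2 : ht a b ≤ ht c b := by omega
    have h3 : (ht a b : ℝ) ≤ ht c b := by exact_mod_cast h2
    exact h3
  refine h1 ξ (Rm x ξ) rfl (ht_Rm_zero ξ x) fun y => ?_
  have := ht_Rm_ge ξ x y
  omega

/-- upper bound of the expected height -/
theorem bcopen_uup {N : ℕ} {r l : ℕ → ℝ} (hA : Adm N r l) (b q i : ℕ) (hq : 1 ≤ q) (hqb : q ≤ b)
    (hbN : b + q ≤ N) (ξ : Cfg N) :
    bcopen_u r l b q i ξ ≤ ht ξ b + r b / (2 * N) * i := by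
  have hb := hA b (by omega) (by omega)
  have hN : (0 : ℝ) < N := by
    have : 0 < N := by omega
    exact_mod_cast this
  induction i generalizing ξ with
  | zero =>
    unfold bcopen_u
    rw [ev_zero]
    simp
  | succ i ih =>
    unfold bcopen_u
    rw [ev_succ]
    refine (stp_mono (g := fun ζ : Cfg N => (ht ζ b : ℝ) + r b / (2 * N) * i) hA
      (fun ζ => ih ζ) ξ).trans ?_
    rw [stp_open]
    have h1 : ∑ x ∈ Finset.Ioo (b - q) (b + q), (r x * (((ht (Rm x ξ) b : ℝ) + r b / (2 * N) * i) -
        ((ht ξ b : ℝ) + r b / (2 * N) * i)) + l x * (((ht (Lm x ξ) b : ℝ) + r b / (2 * N) * i) -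
        ((ht ξ b : ℝ) + r b / (2 * N) * i))) ≤ r b := by
      have h2 : ∀ x ∈ Finset.Ioo (b - q) (b + q),
          (r x * (((ht (Rm x ξ) b : ℝ) + r b / (2 * N) * i) -
          ((ht ξ b : ℝ) + r b / (2 * N) * i)) + l x * (((ht (Lm x ξ) b : ℝ) + r b / (2 * N) * i) -
          ((ht ξ b : ℝ) + r b / (2 * N) * i))) ≤ if x = b then r b else 0 := by
        intro x hx
        rw [Finset.mem_Ioo] at hx
        have hx' := hA x (by omega) (by omega)
        by_cases hxb : x = b
        · subst hxb
          rw [if_pos rfl]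
          have h3 : (ht (Rm x ξ) x : ℝ) ≤ ht ξ x + 1 := by exact_mod_cast ht_Rm_le ξ x x
          have h4 : (ht (Lm x ξ) x : ℝ) ≤ ht ξ x := by exact_mod_cast ht_Lm_le ξ x x
          have h5 : r x * (((ht (Rm x ξ) x : ℝ) + r x / (2 * N) * i) -
            ((ht ξ x : ℝ) + r x / (2 * N) * i)) ≤ r x * 1 :=
            mul_le_mul_of_nonneg_left (by linarith) hx'.1.le
          have h6 : l x * (((ht (Lm x ξ) x : ℝ) + r x / (2 * N) * i) -
            ((ht ξ x : ℝ) + r x / (2 * N) * i)) ≤ l x * 0 :=
            mul_le_mul_of_nonneg_left (by linarith) hx'.2.2.1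
          linarith
        · rw [if_neg hxb, ht_Rm_ne ξ (Ne.symm hxb), ht_Lm_ne ξ (Ne.symm hxb)]
          simp
      refine (Finset.sum_le_sum h2).trans ?_
      rw [Finset.sum_ite_eq' _ b, if_pos]
      rw [Finset.mem_Ioo]
      omega
    have h7 := div_le_div_of_nonneg_right h1 (by positivity : (0 : ℝ) ≤ 2 * N)
    push_cast
    have h8 : r b / (2 * (N : ℝ)) * ((i : ℝ) + 1) = r b / (2 * N) * i + r b / (2 * N) := by ring
    linarith

theorem bcopen_main {N : ℕ} {r l : ℕ → ℝ} (hA : Adm N r l) (b q : ℕ) (hq : 1 ≤ q) (hqb : q ≤ b)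
    (hbN : b + q ≤ N) (η : Cfg N) (hl : ∀ x, b ≤ x + q → x < b → occ η x = true)
    (hr : ∀ x, b ≤ x → x < b + q → occ η x = false) (i : ℕ) :
    (ht η b : ℝ) ≤ bcopen_u r l b q i η := by
  have h1 := bcopen_mono (r := r) (l := l) hA (Finset.Ioo (b - q) (b + q)) {ξ | hle 0 η ξ}
    (fun ξ hξ x hx => bcopen_closed hqb hbN hl hr hξ hx)
    (f := fun _ => (ht η b : ℝ)) (g := fun ξ => (ht ξ b : ℝ))
    (fun ξ hξ => by
      have := hξ b
      have h2 : ht η b ≤ ht ξ b := by omega
      exact_mod_cast h2) i η (hle_refl η)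
  rw [ev_const] at h1
  exact h1

/-- lower bound of the expected height from the two-body states -/
theorem bcopen_two {N : ℕ} {r l : ℕ → ℝ} (hA : Adm N r l) (b q : ℕ) (hq : 1 ≤ q) (hqb : q ≤ b)
    (hbN : b + q ≤ N) (η : Cfg N) (hl : ∀ x, b ≤ x + q → x < b → occ η x = true)
    (hr : ∀ x, b ≤ x → x < b + q → occ η x = false) (i : ℕ) : ∀ h g, h < q → g < q →
    (ht η b : ℝ) + tb N r l b q i h g ≤ bcopen_u r l b q i (bcopen_E η b h g) := by
  have hN2 : 2 ≤ N := by omega
  have hN : (2 : ℝ) ≤ N := by exact_mod_cast hN2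
  induction i with
  | zero =>
    intro h g hh hg
    unfold bcopen_u
    rw [ev_zero]
    have h1 : hle 0 η (bcopen_E η b h g) ∧ ht (bcopen_E η b h g) b = ht η b + 1 := by
      -- induction from the state with one crossing
      have hE0 : hle 0 η (bcopen_E η b 0 0) ∧ ht (bcopen_E η b 0 0) b = ht η b + 1 := by
        rw [← bcopen_Rb hqb hbN hl hr hq]
        refine ⟨(bcopen_closed hqb hbN hl hr (hle_refl η) ?_).1, ?_⟩
        · rw [Finset.mem_Ioo]
          omega
        · rw [ht_Rm η (by omega) (by omega)]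
          have h2 := (occ_iff_ht η (by omega : b - 1 < N)).1 (hl (b - 1) (by omega) (by omega))
          have h3 := (not_occ_iff_ht η (by omega : b < N)).1 (hr b (by omega) (by omega))
          have e : b - 1 + 1 = b := by omega
          rw [e] at h2
          omega
      have hEh : ∀ h, h < q → hle 0 η (bcopen_E η b h 0) ∧
          ht (bcopen_E η b h 0) b = ht η b + 1 := by
        intro h
        induction h with
        | zero => intro _; exact hE0
        | succ h ih =>
          intro hh
          have ih' := ih (by omega)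
          rw [← bcopen_R1 hqb hbN hl hr hh (by omega)]
          refine ⟨(bcopen_closed hqb hbN hl hr ih'.1 ?_).1, ?_⟩
          · rw [Finset.mem_Ioo]
            omega
          · rw [ht_Rm_ne _ (by omega)]
            exact ih'.2
      have hEg : ∀ g, g < q → hle 0 η (bcopen_E η b h g) ∧
          ht (bcopen_E η b h g) b = ht η b + 1 := by
        intro g
        induction g with
        | zero => intro _; exact hEh h hh
        | succ g ih =>
          intro hg
          have ih' := ih (by omega)
          rw [← bcopen_R2 hqb hbN hl hr hh hg]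
          refine ⟨(bcopen_closed hqb hbN hl hr ih'.1 ?_).1, ?_⟩
          · rw [Finset.mem_Ioo]
            omega
          · rw [ht_Rm_ne _ (by omega)]
            exact ih'.2
      exact hEg g hg
    rw [h1.2, tb]
    push_cast
    linarith
  | succ i ih =>
    intro h g hh hg
    set H : ℝ := (ht η b : ℝ) with hH
    set u : Cfg N → ℝ := bcopen_u r l b q i with hu
    set uE : ℝ := u (bcopen_E η b h g) with huE
    set U : ℝ := tb N r l b q i h g with hU
    have hd : 0 ≤ uE - H - U := by
      have := ih h g hh hg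
      linarith
    set d : ℝ := uE - H - U with hdd
    -- the sum of the effects
    have hsum : (if h + 1 < q then r (b - 1 - h) * (u (bcopen_E η b (h + 1) g) - uE) else 0) +
        (if g + 1 < q then r (b + g + 1) * (u (bcopen_E η b h (g + 1)) - uE) else 0) +
        ((if 0 < h then l (b - h) * (u (bcopen_E η b (h - 1) g) - uE) else 0) +
        (if 0 < g then l (b + g) * (u (bcopen_E η b h (g - 1)) - uE) else 0) +
        (if h = 0 ∧ g = 0 then l b * (u η - uE) else 0)) ≤
        ∑ x ∈ Finset.Ioo (b - q) (b + q), (r x * (u (Rm x (bcopen_E η b h g)) - uE) +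
          l x * (u (Lm x (bcopen_E η b h g)) - uE)) := by
      rw [← bcopen_sum (Finset.Ioo (b - q) (b + q)) (b - 1 - h) (h + 1 < q)
          (fun x => r x * (u (bcopen_E η b (h + 1) g) - uE))
          (fun _ => by rw [Finset.mem_Ioo]; omega),
        ← bcopen_sum (Finset.Ioo (b - q) (b + q)) (b + g + 1) (g + 1 < q)
          (fun x => r x * (u (bcopen_E η b h (g + 1)) - uE))
          (fun _ => by rw [Finset.mem_Ioo]; omega),
        ← bcopen_sum (Finset.Ioo (b - q) (b + q)) (b - h) (0 < h)
          (fun x => l x * (u (bcopen_E η b (h - 1) g) - uE))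
          (fun _ => by rw [Finset.mem_Ioo]; omega),
        ← bcopen_sum (Finset.Ioo (b - q) (b + q)) (b + g) (0 < g)
          (fun x => l x * (u (bcopen_E η b h (g - 1)) - uE))
          (fun _ => by rw [Finset.mem_Ioo]; omega),
        ← bcopen_sum (Finset.Ioo (b - q) (b + q)) b (h = 0 ∧ g = 0)
          (fun x => l x * (u η - uE))
          (fun _ => by rw [Finset.mem_Ioo]; omega),
        ← Finset.sum_add_distrib, ← Finset.sum_add_distrib, ← Finset.sum_add_distrib,
        ← Finset.sum_add_distrib]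
      refine Finset.sum_le_sum fun x hx => ?_
      have hx' := Finset.mem_Ioo.1 hx
      have hr0 := hA x (by omega) (by omega)
      refine add_le_add ?_ (le_of_eq ?_)
      · have hge : 0 ≤ r x * (u (Rm x (bcopen_E η b h g)) - uE) := by
          refine mul_nonneg hr0.1.le ?_
          have := bcopen_uinc hA b q i x (bcopen_E η b h g)
          linarith
        by_cases c1 : x = b - 1 - h ∧ h + 1 < q
        · rw [if_pos c1, if_neg (by omega), add_zero]
          have e := bcopen_R1 hqb hbN hl hr (h := h) (g := g) c1.2 hg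
          rw [← c1.1] at e
          rw [e]
        · rw [if_neg c1, zero_add]
          by_cases c2 : x = b + g + 1 ∧ g + 1 < q
          · rw [if_pos c2]
            have e := bcopen_R2 hqb hbN hl hr (h := h) (g := g) hh c2.2
            rw [← c2.1] at e
            rw [e]
          · rw [if_neg c2]
            exact hge
      · by_cases c1 : x = b - h ∧ 0 < h
        · rw [if_pos c1, if_neg (by omega), if_neg (by omega), add_zero, add_zero]
          have e := bcopen_L1 hqb hbN hl hr (h := h) (g := g) c1.2 hh hg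
          rw [← c1.1] at e
          rw [e]
        · rw [if_neg c1, zero_add]
          by_cases c2 : x = b + g ∧ 0 < g
          · rw [if_pos c2, if_neg (by omega), add_zero]
            have e := bcopen_L2 hqb hbN hl hr (h := h) (g := g) hh c2.2 hg
            rw [← c2.1] at e
            rw [e]
          · rw [if_neg c2, zero_add]
            by_cases c3 : x = b ∧ (h = 0 ∧ g = 0)
            · rw [if_pos c3]
              obtain ⟨rfl, rfl, rfl⟩ := c3
              have e := bcopen_L0 hqb hbN hl hr hq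
              rw [e]
            · rw [if_neg c3]
              have e := bcopen_Lo hqb hbN hl hr hh hg hx c1 c2 c3
              rw [e, huE]
              ring
    have hstep := bcopen_usucc r l b q i (bcopen_E η b h g)
    rw [hstep]
    have hηH : H ≤ u η := bcopen_main hA b q hq hqb hbN η hl hr i
    have hA1 : (if h + 1 < q then r (b - 1 - h) * (tb N r l b q i (h + 1) g - U) else 0) - d ≤
        (if h + 1 < q then r (b - 1 - h) * (u (bcopen_E η b (h + 1) g) - uE) else 0) := by
      split_ifs with c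
      · have hx := hA (b - 1 - h) (by omega) (by omega)
        have h2 := ih (h + 1) g c hg
        have h3 : r (b - 1 - h) * (tb N r l b q i (h + 1) g - U - d) ≤
            r (b - 1 - h) * (u (bcopen_E η b (h + 1) g) - uE) :=
          mul_le_mul_of_nonneg_left (by linarith) hx.1.le
        have h4 : r (b - 1 - h) * d ≤ 1 * d := mul_le_mul_of_nonneg_right hx.2.1 hd
        linarith
      · linarith
    have hA2 : (if g + 1 < q then r (b + g + 1) * (tb N r l b q i h (g + 1) - U) else 0) - d ≤
        (if g + 1 < q then r (b + g + 1) * (u (bcopen_E η b h (g + 1)) - uE) else 0) := by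
      split_ifs with c
      · have hx := hA (b + g + 1) (by omega) (by omega)
        have h2 := ih h (g + 1) hh c
        have h3 : r (b + g + 1) * (tb N r l b q i h (g + 1) - U - d) ≤
            r (b + g + 1) * (u (bcopen_E η b h (g + 1)) - uE) :=
          mul_le_mul_of_nonneg_left (by linarith) hx.1.le
        have h4 : r (b + g + 1) * d ≤ 1 * d := mul_le_mul_of_nonneg_right hx.2.1 hd
        linarith
      · linarith
    have hA3 : (if 0 < h then l (b - h) * (tb N r l b q i (h - 1) g - U) else 0) +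
        (if 0 < g then l (b + g) * (tb N r l b q i h (g - 1) - U) else 0) -
        (if h = 0 ∧ g = 0 then l b * U else 0) - 2 * d ≤
        ((if 0 < h then l (b - h) * (u (bcopen_E η b (h - 1) g) - uE) else 0) +
        (if 0 < g then l (b + g) * (u (bcopen_E η b h (g - 1)) - uE) else 0) +
        (if h = 0 ∧ g = 0 then l b * (u η - uE) else 0)) := by
      have hL1 : (if 0 < h then l (b - h) * (tb N r l b q i (h - 1) g - U) else 0) -
          (if 0 < h then d else 0) ≤
          (if 0 < h then l (b - h) * (u (bcopen_E η b (h - 1) g) - uE) else 0) := by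
        split_ifs with c
        · have hx := hA (b - h) (by omega) (by omega)
          have h2 := ih (h - 1) g (by omega) hg
          have h3 : l (b - h) * (tb N r l b q i (h - 1) g - U - d) ≤
              l (b - h) * (u (bcopen_E η b (h - 1) g) - uE) :=
            mul_le_mul_of_nonneg_left (by linarith) hx.2.2.1
          have h4 : l (b - h) * d ≤ 1 * d := mul_le_mul_of_nonneg_right hx.2.2.2 hd
          linarith
        · linarith
      have hL2 : (if 0 < g then l (b + g) * (tb N r l b q i h (g - 1) - U) else 0) -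
          (if 0 < g then d else 0) ≤
          (if 0 < g then l (b + g) * (u (bcopen_E η b h (g - 1)) - uE) else 0) := by
        split_ifs with c
        · have hx := hA (b + g) (by omega) (by omega)
          have h2 := ih h (g - 1) hh (by omega)
          have h3 : l (b + g) * (tb N r l b q i h (g - 1) - U - d) ≤
              l (b + g) * (u (bcopen_E η b h (g - 1)) - uE) :=
            mul_le_mul_of_nonneg_left (by linarith) hx.2.2.1
          have h4 : l (b + g) * d ≤ 1 * d := mul_le_mul_of_nonneg_right hx.2.2.2 hd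
          linarith
        · linarith
      have hL0 : -(if h = 0 ∧ g = 0 then l b * U else 0) - (if h = 0 ∧ g = 0 then d else 0) ≤
          (if h = 0 ∧ g = 0 then l b * (u η - uE) else 0) := by
        split_ifs with c
        · have hx := hA b (by omega) (by omega)
          have h3 : l b * (-U - d) ≤ l b * (u η - uE) :=
            mul_le_mul_of_nonneg_left (by linarith) hx.2.2.1
          have h4 : l b * d ≤ 1 * d := mul_le_mul_of_nonneg_right hx.2.2.2 hd
          linarith
        · linarith
      have hcount : (if 0 < h then d else 0) + (if 0 < g then d else 0) +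
          (if h = 0 ∧ g = 0 then d else 0) ≤ 2 * d := by
        rcases Nat.eq_zero_or_pos h with c | c <;> rcases Nat.eq_zero_or_pos g with c' | c'
        · rw [if_neg (by omega), if_neg (by omega), if_pos ⟨c, c'⟩]
          linarith
        · rw [if_neg (by omega), if_pos c', if_neg (by omega)]
          linarith
        · rw [if_pos c, if_neg (by omega), if_neg (by omega)]
          linarith
        · rw [if_pos c, if_pos c', if_neg (by omega)]
          linarith
      linarith
    -- conclusion
    rw [tb]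
    have hcpos : 0 < 1 / (2 * (N : ℝ)) := by positivity
    have hc4 : 4 * (1 / (2 * (N : ℝ))) ≤ 1 := by
      rw [mul_one_div, div_le_one (by linarith)]
      linarith
    have hall := mul_le_mul_of_nonneg_left
      (le_trans (add_le_add (add_le_add hA1 hA2) hA3) hsum) hcpos.le
    have hdiv : ∀ z : ℝ, z / (2 * (N : ℝ)) = 1 / (2 * (N : ℝ)) * z := fun z => by ring
    rw [← hu, ← huE, ← hU]
    generalize (∑ x ∈ Finset.Ioo (b - q) (b + q), (r x * (u (Rm x (bcopen_E η b h g)) - uE) +
      l x * (u (Lm x (bcopen_E η b h g)) - uE))) = Sg at hall ⊢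
    rw [hdiv Sg]
    have h4d : 4 * (1 / (2 * (N : ℝ))) * d ≤ 1 * d := mul_le_mul_of_nonneg_right hc4 hd
    have e1 : 1 / (2 * (N : ℝ)) *
        ((if h + 1 < q then r (b - 1 - h) * (tb N r l b q i (h + 1) g - U) else 0) - d +
        ((if g + 1 < q then r (b + g + 1) * (tb N r l b q i h (g + 1) - U) else 0) - d) +
        ((if 0 < h then l (b - h) * (tb N r l b q i (h - 1) g - U) else 0) +
        (if 0 < g then l (b + g) * (tb N r l b q i h (g - 1) - U) else 0) -
        (if h = 0 ∧ g = 0 then l b * U else 0) - 2 * d)) =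
        1 / (2 * (N : ℝ)) * (
        (if h + 1 < q then r (b - 1 - h) * (tb N r l b q i (h + 1) g - U) else 0) +
        (if 0 < h then l (b - h) * (tb N r l b q i (h - 1) g - U) else 0) +
        (if g + 1 < q then r (b + g + 1) * (tb N r l b q i h (g + 1) - U) else 0) +
        (if 0 < g then l (b + g) * (tb N r l b q i h (g - 1) - U) else 0) -
        (if h = 0 ∧ g = 0 then l b * U else 0)) - 4 * (1 / (2 * (N : ℝ))) * d := by ring
    rw [e1] at hall
    linarith

theorem st_BCOPEN : ST_BCOPEN := by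
  intro N r l b q m η hA hq hqb hbN _ hl hr
  have hN2 : 2 ≤ N := by omega
  have hN : (2 : ℝ) ≤ N := by exact_mod_cast hN2
  have hcl : ∀ ξ ∈ {ξ : Cfg N | hle 0 η ξ}, ∀ x ∈ Finset.Ioo (b - q) (b + q),
      Rm x ξ ∈ {ξ : Cfg N | hle 0 η ξ} ∧ Lm x ξ ∈ {ξ : Cfg N | hle 0 η ξ} :=
    fun ξ hξ x hx => bcopen_closed hqb hbN hl hr hξ hx
  constructor
  · set a : ℝ := r b / (2 * N) with ha
    have hrb := hA b (by omega) (by omega)
    have ha0 : 0 ≤ a := div_nonneg hrb.1.le (by linarith)
    set H : ℝ := (ht η b : ℝ) with hH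
    -- expected number of crossings
    have hrec : ∀ i, bcopen_u r l b q (i + 1) η = bcopen_u r l b q i η +
        a * (bcopen_u r l b q i (bcopen_E η b 0 0) - bcopen_u r l b q i η) := by
      intro i
      rw [bcopen_usucc]
      have h1 : ∑ x ∈ Finset.Ioo (b - q) (b + q), (r x * (bcopen_u r l b q i (Rm x η) -
          bcopen_u r l b q i η) + l x * (bcopen_u r l b q i (Lm x η) -
          bcopen_u r l b q i η)) =
          r b * (bcopen_u r l b q i (bcopen_E η b 0 0) - bcopen_u r l b q i η) := by
        rw [Finset.sum_eq_single b]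
        · rw [(bcopen_stay hqb hbN hl hr (x := b) (by rw [Finset.mem_Ioo]; omega)).1,
            bcopen_Rb hqb hbN hl hr hq]
          ring
        · intro x hx hxb
          rw [(bcopen_stay hqb hbN hl hr hx).1, (bcopen_stay hqb hbN hl hr hx).2 hxb]
          ring
        · intro hh
          exact absurd (by rw [Finset.mem_Ioo]; omega) hh
      rw [h1, ha]
      ring
    have hlow : ∀ i : ℕ, a * (∑ j ∈ Finset.range i, tb N r l b q j 0 0) - a ^ 2 * (i : ℝ) ^ 2 / 2 ≤
        bcopen_u r l b q i η - H := by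
      intro i
      induction i with
      | zero =>
        unfold bcopen_u
        rw [ev_zero]
        simp
        exact le_rfl
      | succ i ih =>
        rw [hrec i, Finset.sum_range_succ]
        have h1 := bcopen_two hA b q hq hqb hbN η hl hr i 0 0 (by omega) (by omega)
        have h2 := bcopen_uup hA b q i hq hqb hbN η
        have h3 : a * (H + tb N r l b q i 0 0 - (H + a * i)) ≤
            a * (bcopen_u r l b q i (bcopen_E η b 0 0) - bcopen_u r l b q i η) :=
          mul_le_mul_of_nonneg_left (by linarith) ha0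
        push_cast
        have h4 : a ^ 2 * ((i : ℝ) + 1) ^ 2 / 2 = a ^ 2 * (i : ℝ) ^ 2 / 2 + a ^ 2 * i +
          a ^ 2 / 2 := by ring
        have h5 : 0 ≤ a ^ 2 := sq_nonneg a
        nlinarith [h3, ih, h4, h5]
    -- second moment
    have hsec : ∀ i : ℕ, ∀ ξ : Cfg N, hle 0 η ξ →
        ev r l (fun _ => Finset.Ioo (b - q) (b + q)) i
          (fun ζ => ((ht ζ b : ℝ) - H) * ((ht ζ b : ℝ) - H - 1)) ξ ≤
        ((ht ξ b : ℝ) - H) * ((ht ξ b : ℝ) - H - 1) + 2 * ((ht ξ b : ℝ) - H) * (a * i) +
          (a * i) ^ 2 := by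
      intro i
      induction i with
      | zero =>
        intro ξ _
        rw [ev_zero]
        simp
      | succ i ih =>
        intro ξ hξ
        rw [ev_succ]
        refine (bcopen_stp hA (Finset.Ioo (b - q) (b + q)) {ξ : Cfg N | hle 0 η ξ} hcl
          (g := fun ζ : Cfg N => ((ht ζ b : ℝ) - H) * ((ht ζ b : ℝ) - H - 1) +
            2 * ((ht ζ b : ℝ) - H) * (a * i) + (a * i) ^ 2)
          (fun ζ hζ => ih ζ hζ) ξ hξ).trans ?_
        rw [stp_open]
        have hy : 0 ≤ (ht ξ b : ℝ) - H := by
          have h1 := hξ b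
          have h2 : ht η b ≤ ht ξ b := by omega
          have h3 : (ht η b : ℝ) ≤ ht ξ b := by exact_mod_cast h2
          linarith
        have hai : 0 ≤ a * i := mul_nonneg ha0 (Nat.cast_nonneg i)
        set y : ℝ := (ht ξ b : ℝ) - H with hyd
        have h1 : ∑ x ∈ Finset.Ioo (b - q) (b + q),
            (r x * ((((ht (Rm x ξ) b : ℝ) - H) * ((ht (Rm x ξ) b : ℝ) - H - 1) +
              2 * ((ht (Rm x ξ) b : ℝ) - H) * (a * i) + (a * i) ^ 2) -
              (((ht ξ b : ℝ) - H) * ((ht ξ b : ℝ) - H - 1) +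
              2 * ((ht ξ b : ℝ) - H) * (a * i) + (a * i) ^ 2)) +
            l x * ((((ht (Lm x ξ) b : ℝ) - H) * ((ht (Lm x ξ) b : ℝ) - H - 1) +
              2 * ((ht (Lm x ξ) b : ℝ) - H) * (a * i) + (a * i) ^ 2) -
              (((ht ξ b : ℝ) - H) * ((ht ξ b : ℝ) - H - 1) +
              2 * ((ht ξ b : ℝ) - H) * (a * i) + (a * i) ^ 2))) ≤
            r b * (2 * y + 2 * (a * i)) := by
          have h2 : ∀ x ∈ Finset.Ioo (b - q) (b + q),
            (r x * ((((ht (Rm x ξ) b : ℝ) - H) * ((ht (Rm x ξ) b : ℝ) - H - 1) +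
              2 * ((ht (Rm x ξ) b : ℝ) - H) * (a * i) + (a * i) ^ 2) -
              (((ht ξ b : ℝ) - H) * ((ht ξ b : ℝ) - H - 1) +
              2 * ((ht ξ b : ℝ) - H) * (a * i) + (a * i) ^ 2)) +
            l x * ((((ht (Lm x ξ) b : ℝ) - H) * ((ht (Lm x ξ) b : ℝ) - H - 1) +
              2 * ((ht (Lm x ξ) b : ℝ) - H) * (a * i) + (a * i) ^ 2) -
              (((ht ξ b : ℝ) - H) * ((ht ξ b : ℝ) - H - 1) +
              2 * ((ht ξ b : ℝ) - H) * (a * i) + (a * i) ^ 2))) ≤
              if x = b then r b * (2 * y + 2 * (a * i)) else 0 := by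
            intro x hx
            have hx' := Finset.mem_Ioo.1 hx
            have hxr := hA x (by omega) (by omega)
            by_cases hxb : x = b
            · subst hxb
              rw [if_pos rfl]
              have hR : ht (Rm x ξ) x = ht ξ x ∨ ht (Rm x ξ) x = ht ξ x + 1 := by
                have h3 := ht_Rm_le ξ x x
                have h4 := ht_Rm_ge ξ x x
                omega
              have hL : ht (Lm x ξ) x = ht ξ x ∨ ht (Lm x ξ) x + 1 = ht ξ x := by
                have h3 := ht_Lm_le ξ x x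
                have h4 := ht_Lm_ge ξ x x
                omega
              have hRb : r x * ((((ht (Rm x ξ) x : ℝ) - H) * ((ht (Rm x ξ) x : ℝ) - H - 1) +
                  2 * ((ht (Rm x ξ) x : ℝ) - H) * (a * i) + (a * i) ^ 2) -
                  (((ht ξ x : ℝ) - H) * ((ht ξ x : ℝ) - H - 1) +
                  2 * ((ht ξ x : ℝ) - H) * (a * i) + (a * i) ^ 2)) ≤
                  r x * (2 * y + 2 * (a * i)) := by
                refine mul_le_mul_of_nonneg_left ?_ hxr.1.le
                rcases hR with h3 | h3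
                · rw [h3, sub_self]
                  linarith
                · rw [h3]
                  push_cast
                  have e : ((ht ξ x : ℝ) + 1 - H) * ((ht ξ x : ℝ) + 1 - H - 1) +
                    2 * ((ht ξ x : ℝ) + 1 - H) * (a * i) + (a * i) ^ 2 -
                    (((ht ξ x : ℝ) - H) * ((ht ξ x : ℝ) - H - 1) +
                    2 * ((ht ξ x : ℝ) - H) * (a * i) + (a * i) ^ 2) =
                    2 * ((ht ξ x : ℝ) - H) + 2 * (a * i) := by ring
                  rw [e]
              have hLb : l x * ((((ht (Lm x ξ) x : ℝ) - H) * ((ht (Lm x ξ) x : ℝ) - H - 1) +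
                  2 * ((ht (Lm x ξ) x : ℝ) - H) * (a * i) + (a * i) ^ 2) -
                  (((ht ξ x : ℝ) - H) * ((ht ξ x : ℝ) - H - 1) +
                  2 * ((ht ξ x : ℝ) - H) * (a * i) + (a * i) ^ 2)) ≤ 0 := by
                refine mul_nonpos_of_nonneg_of_nonpos hxr.2.2.1 ?_
                rcases hL with h3 | h3
                · rw [h3, sub_self]
                · have h4 : (ht ξ x : ℝ) = (ht (Lm x ξ) x : ℝ) + 1 := by
                    rw [← h3]
                    push_cast
                    ring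
                  have h5 : 0 ≤ (ht (Lm x ξ) x : ℝ) - H := by
                    have h6 := (hcl ξ hξ x hx).2 x
                    have h7 : ht η x ≤ ht (Lm x ξ) x := by omega
                    have h8 : (ht η x : ℝ) ≤ ht (Lm x ξ) x := by exact_mod_cast h7
                    linarith
                  have e : ((ht (Lm x ξ) x : ℝ) - H) * ((ht (Lm x ξ) x : ℝ) - H - 1) +
                    2 * ((ht (Lm x ξ) x : ℝ) - H) * (a * i) + (a * i) ^ 2 -
                    (((ht ξ x : ℝ) - H) * ((ht ξ x : ℝ) - H - 1) +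
                    2 * ((ht ξ x : ℝ) - H) * (a * i) + (a * i) ^ 2) =
                    -(2 * ((ht (Lm x ξ) x : ℝ) - H) + 2 * (a * i)) := by
                    rw [h4]
                    ring
                  rw [e]
                  linarith
              linarith
            · rw [if_neg hxb, ht_Rm_ne ξ (Ne.symm hxb), ht_Lm_ne ξ (Ne.symm hxb)]
              simp
          refine (Finset.sum_le_sum h2).trans ?_
          rw [Finset.sum_ite_eq' _ b, if_pos]
          rw [Finset.mem_Ioo]
          omega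
        have h3 := div_le_div_of_nonneg_right h1 (by linarith : (0 : ℝ) ≤ 2 * N)
        have h4 : r b * (2 * y + 2 * (a * i)) / (2 * N) = a * (2 * y + 2 * (a * i)) := by
          rw [ha]
          ring
        rw [h4] at h3
        push_cast
        have h5 : 0 ≤ a ^ 2 := sq_nonneg a
        have h6 : y * (y - 1) + 2 * y * (a * ((i : ℝ) + 1)) + (a * ((i : ℝ) + 1)) ^ 2 =
          y * (y - 1) + 2 * y * (a * i) + (a * i) ^ 2 + a * (2 * y + 2 * (a * i)) + a ^ 2 := by
          ring
        linarith
    -- the probability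
    have hpt : ∀ ζ : Cfg N, (ht ζ b : ℝ) - H -
        1 / 2 * (((ht ζ b : ℝ) - H) * ((ht ζ b : ℝ) - H - 1)) ≤
        ind {ξ : Cfg N | ht η b + 1 ≤ ht ξ b} ζ := by
      intro ζ
      have key : ∀ z : ℤ, (z : ℝ) - 1 / 2 * ((z : ℝ) * ((z : ℝ) - 1)) ≤
          if 1 ≤ z then 1 else 0 := by
        intro z
        split_ifs with hz
        · have h1 : (0 : ℤ) ≤ (z - 1) * (z - 2) := by
            rcases lt_or_ge z 2 with h | h
            · have : z = 1 := by omega
              subst this
              norm_num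
            · exact mul_nonneg (by omega) (by omega)
          have h2 : (0 : ℝ) ≤ ((z : ℝ) - 1) * ((z : ℝ) - 2) := by exact_mod_cast h1
          linarith [h2, (by ring : ((z : ℝ) - 1) * ((z : ℝ) - 2) = (z : ℝ) * ((z : ℝ) - 1) -
            2 * z + 2)]
        · have h1 : (0 : ℤ) ≤ (-z) * (3 - z) := mul_nonneg (by omega) (by omega)
          have h2 : (0 : ℝ) ≤ (-(z : ℝ)) * (3 - (z : ℝ)) := by exact_mod_cast h1
          linarith [h2, (by ring : (-(z : ℝ)) * (3 - (z : ℝ)) = (z : ℝ) * ((z : ℝ) - 1) -
            2 * z)]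
      have h1 := key ((ht ζ b : ℤ) - ht η b)
      push_cast at h1
      refine h1.trans ?_
      by_cases hz : ht η b + 1 ≤ ht ζ b
      · rw [ind_of_mem (show ζ ∈ {ξ : Cfg N | ht η b + 1 ≤ ht ξ b} from hz), if_pos]
        omega
      · rw [ind_of_not_mem (show ζ ∉ {ξ : Cfg N | ht η b + 1 ≤ ht ξ b} from hz), if_neg]
        omega
    have h1 := ev_mono hA hpt (fun _ => Finset.Ioo (b - q) (b + q)) m η
    rw [ev_sub (r := r) (l := l) (fun _ => Finset.Ioo (b - q) (b + q)) m
      (fun ζ : Cfg N => (ht ζ b : ℝ) - H)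
      (fun ζ : Cfg N => 1 / 2 * (((ht ζ b : ℝ) - H) * ((ht ζ b : ℝ) - H - 1))),
      ev_sub (r := r) (l := l) (fun _ => Finset.Ioo (b - q) (b + q)) m
      (fun ζ : Cfg N => (ht ζ b : ℝ)) (fun _ => H), ev_const,
      ev_smul (r := r) (l := l) (fun _ => Finset.Ioo (b - q) (b + q)) m (1 / 2)
      (fun ζ : Cfg N => ((ht ζ b : ℝ) - H) * ((ht ζ b : ℝ) - H - 1))] at h1
    have h2 := hlow m
    have h3 := hsec m η (hle_refl η)
    have h4 : (ht η b : ℝ) - H = 0 := by rw [hH]; ring
    rw [h4] at h3
    unfold bcopen_u at h2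
    unfold pr kap
    have h5 : r b * ((∑ i ∈ Finset.range m, tb N r l b q i 0 0) / (2 * (N : ℝ))) =
        a * ∑ i ∈ Finset.range m, tb N r l b q i 0 0 := by
      rw [ha]
      ring
    have h6 : (r b * (m : ℝ) / (2 * N)) ^ 2 = a ^ 2 * (m : ℝ) ^ 2 := by
      rw [ha]
      ring
    rw [h5, h6]
    have h7 : (a * (m : ℝ)) ^ 2 = a ^ 2 * (m : ℝ) ^ 2 := by ring
    rw [h7] at h3
    linarith
  · refine le_antisymm ?_ (pr_nonneg hA _ _ _ _)
    have h1 := bcopen_mono (r := r) (l := l) hA (Finset.Ioo (b - q) (b + q))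
      {ξ : Cfg N | hle 0 η ξ} hcl (f := ind {ξ : Cfg N | ¬ hle 0 η ξ}) (g := fun _ => (0 : ℝ))
      (fun ξ hξ => by
        rw [ind_of_not_mem]
        intro hh
        exact hh hξ) m η (hle_refl η)
    rw [ev_const] at h1
    exact h1

end Pool.Agent.Helper98.EX
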