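import Pool.Agent.Helper98.EY.StmtsB

namespace Pool.Agent.Helper98.EX

open Finset

theorem brd_exp (w : ℕ) (hw : 1 ≤ w) : (1 + 1 / (w : ℝ)) ^ w ≤ 3 := by
  have hw0 : (0 : ℝ) < w := by exact_mod_cast hw
  have h1 : 1 + 1 / (w : ℝ) ≤ Real.exp (1 / w) := by
    have := Real.add_one_le_exp (1 / (w : ℝ))
    linarith
  have h2 : (1 + 1 / (w : ℝ)) ^ w ≤ Real.exp (1 / w) ^ w :=
    pow_le_pow_left₀ (by positivity) h1 w
  have h3 : Real.exp (1 / w) ^ w = Real.exp 1 := by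
    rw [← Real.exp_nat_mul]
    congr 1
    field_simp
  have h4 := Real.exp_one_lt_d9
  rw [h3] at h2
  linarith

theorem brd_vp_nonneg (r l : ℕ → ℝ) (h : ∀ x, 0 < r x ∧ 0 ≤ l x) (z y : ℕ) : 0 ≤ vp r l z y := by
  unfold vp RR
  exact div_nonneg (Finset.prod_nonneg fun b _ => div_nonneg (h b).2 (h b).1.le) (h _).1.le

theorem brd_RR_nonneg (r l : ℕ → ℝ) (h : ∀ x, 0 < r x ∧ 0 ≤ l x) (z y : ℕ) : 0 ≤ RR r l z y := by
  unfold RR
  exact Finset.prod_nonneg fun b _ => div_nonneg (h b).2 (h b).1.le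

/-- the truncated weight is at most three times the sum of the window values -/
theorem brd_atb (r l : ℕ → ℝ) (h : ∀ x, 0 < r x ∧ 0 ≤ l x) (w A y : ℕ) (hw : 1 ≤ w)
    (hy : A ≤ y) :
    atb r l (1 / w) w A y ≤ 3 * ∑ z ∈ Finset.range (y + 1), vp r l z y := by
  have hw0 : (0 : ℝ) < w := by exact_mod_cast hw
  unfold atb
  have h1 : ∑ d ∈ Finset.range (min w (y + 1 - A)), (1 + 1 / (w : ℝ)) ^ (d + 1) *
      vp r l (y - d) y ≤ ∑ d ∈ Finset.range (min w (y + 1 - A)), 3 * vp r l (y - d) y := by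
    refine Finset.sum_le_sum fun d hd => ?_
    have hd' := Finset.mem_range.1 hd
    have h2 : (1 + 1 / (w : ℝ)) ^ (d + 1) ≤ (1 + 1 / (w : ℝ)) ^ w :=
      pow_le_pow_right₀ (by
        have : (0 : ℝ) < 1 / w := by positivity
        linarith) (by omega)
    exact mul_le_mul_of_nonneg_right (h2.trans (brd_exp w hw)) (brd_vp_nonneg r l h _ _)
  refine h1.trans ?_
  rw [← Finset.mul_sum]
  refine mul_le_mul_of_nonneg_left ?_ (by norm_num)
  have h3 : ∑ d ∈ Finset.range (min w (y + 1 - A)), vp r l (y - d) y ≤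
      ∑ d ∈ Finset.range (y + 1), vp r l (y - d) y := by
    refine Finset.sum_le_sum_of_subset_of_nonneg ?_ fun d _ _ => brd_vp_nonneg r l h _ _
    intro d hd
    have := Finset.mem_range.1 hd
    exact Finset.mem_range.2 (by omega)
  refine h3.trans (le_of_eq ?_)
  have h4 := Finset.sum_range_reflect (fun z => vp r l z y) (y + 1)
  rw [← h4]
  refine Finset.sum_congr rfl fun d hd => ?_
  congr 1

/-- the two sums -/
theorem brd_sum (r l : ℕ → ℝ) (h : ∀ x, 0 < r x ∧ 0 ≤ l x) (N A x0 : ℕ) (C1 : ℝ)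
    (hx : x0 < N)
    (hsp : ∑ y ∈ Finset.range (N - 1), ∑ z ∈ Finset.range (y + 1), vp r l z y ≤ C1 * N) :
    ∑ y ∈ Finset.Ico A x0, ∑ z ∈ Finset.range (y + 1), vp r l z y ≤ C1 * N := by
  refine le_trans (Finset.sum_le_sum_of_subset_of_nonneg ?_ ?_) hsp
  · intro y hy
    have := Finset.mem_Ico.1 hy
    exact Finset.mem_range.2 (by omega)
  · intro y _ _
    exact Finset.sum_nonneg fun z _ => brd_vp_nonneg r l h _ _

open Classical in
theorem brd_card (r l : ℕ → ℝ) (h : ∀ x, 0 < r x ∧ 0 ≤ l x) (A x0 : ℕ) (θ S : ℝ)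
    (hθ : 0 < θ) (hS : ∑ y ∈ Finset.Ico A x0, ∑ z ∈ Finset.range (y + 1), vp r l z y ≤ S) :
    (((Finset.Ico A x0).filter (fun y => ∃ z, A ≤ z ∧ z ≤ y ∧ θ < vp r l z y)).card : ℝ) ≤
      S / θ := by
  rw [le_div_iff₀ hθ]
  refine le_trans ?_ hS
  have h1 : ∑ y ∈ (Finset.Ico A x0).filter (fun y => ∃ z, A ≤ z ∧ z ≤ y ∧ θ < vp r l z y), θ ≤
      ∑ y ∈ (Finset.Ico A x0).filter (fun y => ∃ z, A ≤ z ∧ z ≤ y ∧ θ < vp r l z y),
        ∑ z ∈ Finset.range (y + 1), vp r l z y := by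
    refine Finset.sum_le_sum fun y hy => ?_
    obtain ⟨-, z, -, hz, hzθ⟩ := Finset.mem_filter.1 hy
    refine hzθ.le.trans ?_
    exact Finset.single_le_sum (f := fun z => vp r l z y) (fun z _ => brd_vp_nonneg r l h _ _)
      (Finset.mem_range.2 (by omega))
  rw [Finset.sum_const, nsmul_eq_mul] at h1
  refine h1.trans ?_
  refine Finset.sum_le_sum_of_subset_of_nonneg (Finset.filter_subset _ _) ?_
  intro y _ _
  exact Finset.sum_nonneg fun z _ => brd_vp_nonneg r l h _ _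

/-- the number of misplaced particles of the adjusted data -/
theorem brd_mis (L : BD) (Q1 : ℕ) (hV : 1 ≤ L.V)
    (h : ∀ v, 1 ≤ v → v ≤ L.V → 2 ≤ v → L.e v ≤ L.g v + Q1) :
    (L.adj 0).mis 1 L.A ≤ 5 * L.w + L.V * Q1 := by
  unfold BD.mis BD.adj
  simp only
  rw [Nat.sub_self, zero_add]
  have h1 : ∑ u ∈ Finset.Icc 1 L.V,
      ((if u = 1 then L.g 1 + 5 * L.w + 0 else L.e u) - L.g u) ≤
      ∑ u ∈ Finset.Icc 1 L.V, ((if u = 1 then 5 * L.w else 0) + Q1) := by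
    refine Finset.sum_le_sum fun u hu => ?_
    have hu' := Finset.mem_Icc.1 hu
    split_ifs with h2
    · subst h2
      omega
    · have := h u hu'.1 hu'.2 (by omega)
      omega
  refine h1.trans ?_
  rw [Finset.sum_add_distrib, Finset.sum_const, Nat.card_Icc, smul_eq_mul]
  have h3 : ∑ u ∈ Finset.Icc 1 L.V, (if u = 1 then 5 * L.w else 0) ≤ 5 * L.w := by
    rw [Finset.sum_ite_eq' (Finset.Icc 1 L.V) 1 (fun _ => 5 * L.w)]
    split_ifs <;> omega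
  have h4 : L.V + 1 - 1 = L.V := by omega
  rw [h4]
  omega

theorem st_BRD (hCUTS : ST_CUTS) (hADJ : ST_ADJ) (hHYP : ST_HYP) : ST_BRD := by
  intro C1 hC1
  obtain ⟨N1, hN1⟩ := hHYP C1
  refine ⟨max N1 ⌈Real.exp (100 + 7 * C1 + 2)⌉₊, ?_⟩
  intro N τ w A x0 d s1 r l θ θA hN hGE hθ40 hθN hθ2 hθA0 hθA hdθ hAx hx0N hNo hnear hend hτ
  have hNN1 : N1 ≤ N := (le_max_left _ _).trans hN
  have hNexp : Real.exp (100 + 7 * C1 + 2) ≤ N := by
    have h1 : ⌈Real.exp (100 + 7 * C1 + 2)⌉₊ ≤ N := (le_max_right _ _).trans hN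
    exact (Nat.le_ceil _).trans (by exact_mod_cast h1)
  have hN0 : (0 : ℝ) < N := lt_of_lt_of_le (Real.exp_pos _) hNexp
  set X := Real.log N with hX
  have hXK : 100 + 7 * C1 + 2 ≤ X := by
    rw [hX, ← Real.log_exp (100 + 7 * C1 + 2)]
    exact Real.log_le_log (Real.exp_pos _) hNexp
  have hX100 : (100 : ℝ) ≤ X := by linarith
  have hX0 : (0 : ℝ) < X := by linarith
  have hpow : ∀ k : ℕ, 100 * X ^ k ≤ X ^ (k + 1) := by
    intro k
    rw [pow_succ, mul_comm]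
    exact mul_le_mul_of_nonneg_left hX100 (by positivity)
  have p0 := hpow 0
  have p1 := hpow 1
  have p2 := hpow 2
  have p3 := hpow 3
  have p4 := hpow 4
  have p5 := hpow 5
  have p6 := hpow 6
  have p7 := hpow 7
  have p8 := hpow 8
  have p9 := hpow 9
  have p10 := hpow 10
  have p11 := hpow 11
  norm_num at p0 p1 p2 p3 p4 p5 p6 p7 p8 p9 p10 p11
  have q6 : X ^ 14 ≤ X ^ 40 := pow_le_pow_right₀ (by linarith) (by norm_num)
  have hθ0 : 0 < θ := lt_of_lt_of_le (by positivity) hθ40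
  have hw1 := hGE.w1
  have hwX : (w : ℝ) ≤ X ^ 2 := hGE.wlog
  have hw0 : (0 : ℝ) < w := by exact_mod_cast hw1
  have hw1' : (1 : ℝ) ≤ w := by exact_mod_cast hw1
  set q0 := ⌈X ^ 6⌉₊ with hq0
  set Q1 := ⌈X ^ 7⌉₊ with hQ1
  have hq0l : X ^ 6 ≤ q0 := Nat.le_ceil _
  have hq0u : (q0 : ℝ) < X ^ 6 + 1 := Nat.ceil_lt_add_one (by positivity)
  have hQ1l : X ^ 7 ≤ Q1 := Nat.le_ceil _
  have hQ1u : (Q1 : ℝ) < X ^ 7 + 1 := Nat.ceil_lt_add_one (by positivity)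
  have he3 := brd_exp w hw1
  have he0 : 0 < (1 + 1 / (w : ℝ)) ^ w := by positivity
  have hW : (w : ℝ) * (1 + 1 / (w : ℝ)) ^ w ≤ 3 * X ^ 2 := by
    calc (w : ℝ) * (1 + 1 / (w : ℝ)) ^ w ≤ X ^ 2 * 3 :=
          mul_le_mul hwX he3 he0.le (by positivity)
      _ = 3 * X ^ 2 := by ring
  have hW0 : 0 ≤ (w : ℝ) * (1 + 1 / (w : ℝ)) ^ w := by positivity
  have hη0 : (0 : ℝ) < 1 / w := by positivity
  have hη1 : 1 / (w : ℝ) ≤ 1 := by
    rw [div_le_one hw0]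
    exact hw1'
  have hVP := brd_vp_nonneg r l hGE.pos
  -- numerical conditions of the cuts
  have c5 : 64 * w + 16 * q0 + 64 ≤ Q1 := by
    have h : (64 : ℝ) * w + 16 * q0 + 64 ≤ Q1 := by linarith
    exact_mod_cast h
  have c6 : ((Q1 : ℝ) + 6 * w) * (w * (1 + 1 / (w : ℝ)) ^ w * θ) ≤ θ * X ^ 12 := by
    have h1 : (Q1 : ℝ) + 6 * w ≤ 2 * X ^ 7 := by linarith
    have h2 : w * (1 + 1 / (w : ℝ)) ^ w * θ ≤ 3 * X ^ 2 * θ :=
      mul_le_mul_of_nonneg_right hW hθ0.le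
    calc ((Q1 : ℝ) + 6 * w) * (w * (1 + 1 / (w : ℝ)) ^ w * θ)
        ≤ (2 * X ^ 7) * (3 * X ^ 2 * θ) := mul_le_mul h1 h2 (by positivity) (by positivity)
      _ = θ * (6 * X ^ 9) := by ring
      _ ≤ θ * X ^ 12 := mul_le_mul_of_nonneg_left (by linarith) hθ0.le
  have c7 : ((d : ℝ) + s1 + q0 + 30 * w) * (w * (1 + 1 / (w : ℝ)) ^ w * θA) ≤ θ * X ^ 12 := by
    have h1 : (d : ℝ) + s1 + q0 + 30 * w ≤ d + s1 + X ^ 7 := by linarith
    calc ((d : ℝ) + s1 + q0 + 30 * w) * (w * (1 + 1 / (w : ℝ)) ^ w * θA)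
        ≤ ((d : ℝ) + s1 + X ^ 7) * ((3 * X ^ 2) * θA) :=
          mul_le_mul h1 (mul_le_mul_of_nonneg_right hW hθA0) (by positivity) (by positivity)
      _ = 3 * X ^ 2 * (((d : ℝ) + s1 + X ^ 7) * θA) := by ring
      _ ≤ 3 * X ^ 2 * (X ^ 9 * θ) := mul_le_mul_of_nonneg_left hdθ (by positivity)
      _ = θ * (3 * X ^ 11) := by ring
      _ ≤ θ * X ^ 12 := mul_le_mul_of_nonneg_left (by linarith) hθ0.le
  have c8' : (A : ℝ) + d + s1 + 2 * q0 + 30 * w + 3 * Q1 ≤ x0 := by linarith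
  have c8 : A + d + s1 + 2 * q0 + 30 * w + 3 * Q1 ≤ x0 := by exact_mod_cast c8'
  have hD : X ^ 7 ≥ 1 := by linarith
  have hD2 : (X ^ 7) ^ 2 ≤ θ := by
    rw [← pow_mul]
    exact q6.trans hθ40
  have c9 : ∀ z1 y1 z2 y2, A ≤ z1 → z1 ≤ y1 → y1 < z2 → z2 ≤ y2 → y2 < x0 → y2 ≤ z1 + Q1 →
      ¬ (θ < vp r l z1 y1 ∧ θ < vp r l z2 y2) := by
    rintro z1 y1 z2 y2 _ h2 h3 h4 h5 h6 ⟨h7, h8⟩
    have h9 := hGE.pp z1 y1 z2 y2 h2 h3 h4 (by omega) (by
      have : (y2 : ℝ) ≤ z1 + Q1 := by exact_mod_cast h6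
      linarith)
    have h10 : θ * θ < vp r l z1 y1 * vp r l z2 y2 :=
      mul_lt_mul'' h7 h8 hθ0.le hθ0.le
    linarith
  have c10 : ∀ a z y b, A < a → a ≤ z → z ≤ y + 1 → A ≤ y → y ≤ b → b < x0 → b ≤ a + Q1 →
      ¬ (θ < vh r l a z ∧ θ < vp r l y b) := by
    intro a z y b h1 h2 h3 _ h5 h6 h7
    refine hNo a z y b h1 h2 h3 h5 (by omega) ?_
    have : (b : ℝ) ≤ a + Q1 := by exact_mod_cast h7
    linarith
  have c11 : ∀ u, A + 6 * w ≤ u → u + q0 + 6 * w ≤ x0 →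
      ∃ g, u ≤ g ∧ g < u + q0 ∧ Shal r l (X ^ 7) w g := by
    intro u h1 h2
    exact hGE.shal u (by omega) (by
      show u + q0 + 6 * w ≤ N + 1
      omega)
  have c12 : ∀ z y, A ≤ z → z ≤ y → y < x0 → θ < vp r l z y → y < z + w := by
    intro z y _ h2 h3 h4
    by_contra hcon
    push Not at hcon
    have h5 := hGE.far z y hcon (by omega)
    have h6 := hGE.rlow (y + 1) (by omega) (by omega)
    have h7 : vp r l z y ≤ 1 := by
      unfold vp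
      have hN1' : (1 : ℝ) ≤ N := by
        have : 1 ≤ N := by omega
        exact_mod_cast this
      rw [div_le_one (hGE.pos _).1]
      refine h5.trans (le_trans ?_ h6)
      exact Real.rpow_le_rpow_of_exponent_le hN1' (by norm_num)
    have h8 : (1 : ℝ) ≤ θ := by
      refine le_trans ?_ hθ40
      exact one_le_pow₀ (by linarith)
    linarith
  have c13 : ∀ z y, A ≤ z → z ≤ y → y < A + d + s1 + 2 * q0 + 30 * w + 2 * Q1 →
      vp r l z y ≤ θA ∧ (A < z → vh r l z y ≤ θA) := by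
    intro z y h1 h2 h3
    refine hnear z y h1 h2 ?_
    have h4 : (y : ℝ) < A + d + s1 + 2 * q0 + 30 * w + 2 * Q1 := by exact_mod_cast h3
    linarith
  have c14 : ∀ z y, A ≤ z → z ≤ y → y < x0 → x0 ≤ y + 2 * Q1 → ¬ θ < vp r l z y := by
    intro z y h1 h2 h3 h4
    refine not_lt.2 (hend z y h1 h2 h3 ?_)
    have h5 : (x0 : ℝ) ≤ y + 2 * Q1 := by exact_mod_cast h4
    linarith
  obtain ⟨L, hLv, hLA, hLx, hLw, hLV, hLg, hLe, hLg2, -, hLs, hLm, hLcount⟩ :=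
    hCUTS N r l A x0 w q0 Q1 d s1 θ θA (X ^ 7) (1 / w) (θ * X ^ 12) hGE.pos hw1 (by
      have : (1 : ℝ) ≤ q0 := by linarith
      exact_mod_cast this) hD hD2 hθA0 hθA hη0 hη1 c5 c6 c7 c8 hx0N.le c9 c10 c11 c12 c13 c14
  -- the number of cells
  have hS := brd_sum r l hGE.pos N A x0 C1 hx0N hGE.sp
  have hcard := brd_card r l hGE.pos A x0 θ (C1 * N) hθ0 hS
  have hatb : ∑ y ∈ Finset.Ico A x0, atb r l (1 / w) w A y ≤ 3 * (C1 * N) := by
    refine le_trans ?_ (mul_le_mul_of_nonneg_left hS (by norm_num : (0 : ℝ) ≤ 3))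
    rw [Finset.mul_sum]
    exact Finset.sum_le_sum fun y hy => brd_atb r l hGE.pos w A y hw1 (Finset.mem_Ico.1 hy).1
  have hNθ : 1 ≤ (N : ℝ) / θ := (one_le_div hθ0).2 hθN
  have hVb : (L.V : ℝ) ≤ X * N / θ := by
    refine hLcount.trans ?_
    have h1 : 2 * (∑ y ∈ Finset.Ico A x0, atb r l (1 / w) w A y) / (θ * X ^ 12) ≤
        C1 * (N / θ) := by
      rw [div_le_iff₀ (by positivity)]
      have h2 : C1 * (N / θ) * (θ * X ^ 12) = C1 * N * X ^ 12 := by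
        field_simp
      rw [h2]
      have h3 : (6 : ℝ) ≤ X ^ 12 := by linarith
      have h4 : 0 ≤ C1 * N := by positivity
      have h4' := mul_le_mul_of_nonneg_left h3 h4
      linarith
    have h5 : C1 * N / θ = C1 * (N / θ) := by ring
    rw [h5] at hcard
    have h6 : X * N / θ = X * (N / θ) := by ring
    rw [h6]
    have h7 : (2 * C1 + 2) * (N / θ) ≤ X * (N / θ) :=
      mul_le_mul_of_nonneg_right (by linarith) (by linarith)
    linarith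
  have hMis : ((L.adj 0).mis 1 A : ℝ) ≤ X ^ 9 * N / θ := by
    have h1 := brd_mis L Q1 hLV (fun v h1 h2 h3 => (hLs v h1 h2).2.1 h3)
    rw [hLA, hLw] at h1
    have h2 : ((L.adj 0).mis 1 A : ℝ) ≤ 5 * w + L.V * Q1 := by exact_mod_cast h1
    refine h2.trans ?_
    have h6 : X * N / θ = X * (N / θ) := by ring
    rw [h6] at hVb
    have h7 : (L.V : ℝ) * Q1 ≤ (X * (N / θ)) * (2 * X ^ 7) :=
      mul_le_mul hVb (by linarith) (by positivity) (by positivity)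
    have h8 : X ^ 9 * N / θ = X ^ 9 * (N / θ) := by ring
    rw [h8]
    have h9 : (5 : ℝ) * w ≤ 5 * X ^ 2 * (N / θ) := by
      have h9' : 5 * X ^ 2 * 1 ≤ 5 * X ^ 2 * (N / θ) :=
        mul_le_mul_of_nonneg_left hNθ (by positivity)
      linarith
    have h10 : (X * (N / θ)) * (2 * X ^ 7) = 2 * X ^ 8 * (N / θ) := by ring
    rw [h10] at h7
    have h11 : (5 * X ^ 2 + 2 * X ^ 8) * (N / θ) ≤ X ^ 9 * (N / θ) :=
      mul_le_mul_of_nonneg_right (by linarith) (by linarith)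
    linarith
  refine ⟨L, hLA, hLx, hLw, hLV, hLg, hVb, hMis, ?_⟩
  intro s hs
  obtain ⟨a1, a2, a3⟩ := hADJ r l L q0 Q1 d s1 θ θA (X ^ 7) (1 / w) (θ * X ^ 12) hGE.pos hLv
    hLV (by rw [hLw]; exact hLe) (by rw [hLA, hLw]; exact hLg2) hη0 hη1 hθA0 hθA (by
      rw [hLw]; omega) (by rw [hLw]; exact c6) (by rw [hLw]; exact c7)
    (by rw [hLA, hLw]; exact c13) (by rw [hLA, hLx, hLw]; exact c12)
    (by rw [hLw]; exact hLs) (by rw [hLw]; exact hLm) s hs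
  rw [hLA] at a3
  exact ⟨a1, hN1 N τ w r l θ (L.adj s) hNN1 hGE a1 hLw (hLx.trans_le hx0N.le) hθ40 a2 hτ, a3⟩

end Pool.Agent.Helper98.EX
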